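import Mathlib

namespace Pool.Agent.MP_6e06a5_co

variable {V : Type*} [DecidableEq V]

/-- The `J`-degree of a vertex: the number of edges of `J` incident to it. -/
def joinDeg (J : Finset (Sym2 V)) (v : V) : ℕ := (J.filter (fun e => v ∈ e)).card

/-- `J` is a `D`-join of `G`: a set of edges of `G` whose odd-degree vertices are exactly `D`. -/
def IsJoin (G : SimpleGraph V) (D : Finset V) (J : Finset (Sym2 V)) : Prop :=
  (∀ e ∈ J, e ∈ G.edgeSet) ∧ ∀ v, Odd (joinDeg J v) ↔ v ∈ D

/-- `J` is a minimum `D`-join of `G`. -/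
def IsMinJoin (G : SimpleGraph V) (D : Finset V) (J : Finset (Sym2 V)) : Prop :=
  IsJoin G D J ∧ ∀ J', IsJoin G D J' → J.card ≤ J'.card

end Pool.Agent.MP_6e06a5_co
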