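import Mathlib
import Pool.Agent.MP_6e06a5_co.Defs

namespace Pool.Agent.MP_6e06a5_co

open Finset
open scoped symmDiff

variable {V : Type*} [DecidableEq V]

lemma joinDeg_insert {J : Finset (Sym2 V)} {e : Sym2 V} (he : e ∉ J) (z : V) :
    joinDeg (insert e J) z = joinDeg J z + if z ∈ e then 1 else 0 := by
  unfold joinDeg
  rw [Finset.filter_insert]
  split_ifs with h
  · rw [Finset.card_insert_of_notMem]
    simp [he]
  · simp

lemma joinDeg_erase {J : Finset (Sym2 V)} {e : Sym2 V} (he : e ∈ J) (z : V) :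
    joinDeg (J.erase e) z + (if z ∈ e then 1 else 0) = joinDeg J z := by
  rw [← joinDeg_insert (Finset.notMem_erase e J), Finset.insert_erase he]

/-- toggling one edge -/
def tog (J : Finset (Sym2 V)) (e : Sym2 V) : Finset (Sym2 V) :=
  if e ∈ J then J.erase e else insert e J

lemma mem_tog {J : Finset (Sym2 V)} {e f : Sym2 V} (h : f ≠ e) : f ∈ tog J e ↔ f ∈ J := by
  unfold tog; split_ifs <;> simp [h]

lemma mem_tog_self {J : Finset (Sym2 V)} {e : Sym2 V} : e ∈ tog J e ↔ e ∉ J := by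
  unfold tog; split_ifs with h <;> simp [h]

/-- indicator in `ZMod 2` -/
def ind (p : Prop) [Decidable p] : ZMod 2 := if p then 1 else 0

lemma deg_tog (J : Finset (Sym2 V)) (e : Sym2 V) (z : V) :
    (joinDeg (tog J e) z : ZMod 2) = joinDeg J z + ind (z ∈ e) := by
  unfold tog ind
  split_ifs with h h2 h2
  · rw [← joinDeg_erase h z]; simp only [h2, if_true]; push_cast
    have : (1 : ZMod 2) + 1 = 0 := by decide
    rw [add_assoc, this, add_zero]
  · rw [← joinDeg_erase h z]; simp [h2]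
  · rw [joinDeg_insert h]; simp [h2]
  · rw [joinDeg_insert h]; simp [h2]

lemma ind_mk {x y : V} (h : x ≠ y) (z : V) :
    ind (z ∈ s(x, y)) = ind (z = x) + ind (z = y) := by
  unfold ind
  by_cases h1 : z = x
  · subst h1; simp [h]
  · by_cases h2 : z = y
    · subst h2; simp [h1]
    · simp [h1, h2]

lemma odd_iff_cast (n : ℕ) (p : Prop) [Decidable p] :
    (Odd n ↔ p) ↔ (n : ZMod 2) = ind p := by
  unfold ind
  by_cases hp : p
  · simp [hp, ZMod.natCast_eq_one_iff_odd]
  · simp [hp, ZMod.natCast_eq_zero_iff_even]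

lemma isJoin_iff (G : SimpleGraph V) (D : Finset V) (J : Finset (Sym2 V)) :
    IsJoin G D J ↔ (∀ e ∈ J, e ∈ G.edgeSet) ∧ ∀ v, (joinDeg J v : ZMod 2) = ind (v ∈ D) := by
  unfold IsJoin
  simp only [odd_iff_cast]

lemma two_z (a : ZMod 2) : a + a = 0 := by revert a; decide

lemma exists_path_join (G : SimpleGraph V) {x y : V} (h : G.Reachable x y)
    (J : Finset (Sym2 V)) (hJ : ∀ e ∈ J, e ∈ G.edgeSet) :
    ∃ J' : Finset (Sym2 V), (∀ e ∈ J', e ∈ G.edgeSet) ∧
      ∀ z, (joinDeg J' z : ZMod 2) = joinDeg J z + ind (z = x) + ind (z = y) := by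
  rw [SimpleGraph.reachable_iff_reflTransGen] at h
  induction h with
  | refl => exact ⟨J, hJ, fun z => by rw [add_assoc, two_z, add_zero]⟩
  | @tail b c _ hbc ih =>
    obtain ⟨J', h1, h2⟩ := ih
    refine ⟨tog J' s(b, c), ?_, fun z => ?_⟩
    · intro e he
      by_cases hh : e = s(b, c)
      · rw [hh]; exact hbc
      · exact h1 e ((mem_tog hh).1 he)
    · rw [deg_tog, h2, ind_mk hbc.ne]
      have := two_z (ind (z = b))
      linear_combination this

lemma exists_join (G : SimpleGraph V) (hG : G.Preconnected) (D : Finset V) (hD : Even D.card) :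
    ∃ J, IsJoin G D J := by
  rcases D.eq_empty_or_nonempty with rfl | ⟨o, -⟩
  · exact ⟨∅, by simp, by simp [joinDeg]⟩
  have key : ∀ D : Finset V, ∃ J : Finset (Sym2 V), (∀ e ∈ J, e ∈ G.edgeSet) ∧
      ∀ z, (joinDeg J z : ZMod 2) = ind (z ∈ D) + D.card * ind (z = o) := by
    intro D
    induction D using Finset.induction_on with
    | empty => exact ⟨∅, by simp, by simp [joinDeg, ind]⟩
    | insert a D ha ih =>
      obtain ⟨J, h1, h2⟩ := ih
      obtain ⟨J', h3, h4⟩ := exists_path_join G (hG a o) J h1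
      refine ⟨J', h3, fun z => ?_⟩
      rw [h4, h2, Finset.card_insert_of_notMem ha]
      have : ind (z ∈ insert a D) = ind (z ∈ D) + ind (z = a) := by
        unfold ind
        by_cases h : z = a
        · subst h; simp [ha]
        · simp [h]
      rw [this]; push_cast; ring
  obtain ⟨J, h1, h2⟩ := key D
  refine ⟨J, (isJoin_iff G D J).2 ⟨h1, fun v => ?_⟩⟩
  rw [h2, (ZMod.natCast_eq_zero_iff_even).2 hD]; simp

/-- The orientation of the edges between `B` and `W`: edges of `J` go from `B` to `W`,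
other edges go from `W` to `B`. -/
def Ori (G : SimpleGraph V) (J : Finset (Sym2 V)) (B W : Set V) (x y : V) : Prop :=
  G.Adj x y ∧ ((x ∈ B ∧ y ∈ W ∧ s(x, y) ∈ J) ∨ (x ∈ W ∧ y ∈ B ∧ s(x, y) ∉ J))

inductive Trail (G : SimpleGraph V) (J : Finset (Sym2 V)) (B W : Set V) (x : V) :
    V → Finset (Sym2 V) → Prop
  | base : Trail G J B W x x J
  | step (y z : V) (J' : Finset (Sym2 V)) : Trail G J B W x y J' → Ori G J B W y z →
      (s(y, z) ∈ J' ↔ s(y, z) ∈ J) → Trail G J B W x z (tog J' s(y, z))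

open Classical in
lemma Trail.props {G : SimpleGraph V} {J : Finset (Sym2 V)} {B W : Set V} (hBW : Disjoint B W)
    (hJ : ∀ e ∈ J, e ∈ G.edgeSet) {x y : V} {J' : Finset (Sym2 V)} (h : Trail G J B W x y J') :
    (∀ e ∈ J', e ∈ G.edgeSet) ∧
    (∀ z, (joinDeg J' z : ZMod 2) = joinDeg J z + ind (z = x) + ind (z = y)) ∧
    ((J'.card : ℤ) + (if y ∈ W then 1 else 0) = J.card + (if x ∈ W then 1 else 0)) ∧
    (∀ e, ¬ (e ∈ J' ↔ e ∈ J) → ∃ a b, e = s(a, b) ∧ Ori G J B W a b ∧
      ∃ J'', Trail G J B W x b J'') := by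
  induction h with
  | base =>
    refine ⟨hJ, fun z => by rw [add_assoc, two_z, add_zero], rfl, fun e he => absurd Iff.rfl he⟩
  | step y z J' hT hO hm ih =>
    obtain ⟨h1, h2, h3, h4⟩ := ih
    refine ⟨?_, ?_, ?_, ?_⟩
    · intro e he
      by_cases hh : e = s(y, z)
      · rw [hh]; exact hO.1
      · exact h1 e ((mem_tog hh).1 he)
    · intro t
      rw [deg_tog, h2, ind_mk hO.1.ne]
      have := two_z (ind (t = y))
      linear_combination this
    · rcases hO.2 with ⟨hy, hz, he⟩ | ⟨hy, hz, he⟩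
      · have hy' : y ∉ W := Set.disjoint_left.1 hBW hy
        have he' : s(y, z) ∈ J' := hm.2 he
        simp only [hy', if_false] at h3
        simp only [hz, if_true]
        rw [← h3]
        unfold tog
        rw [if_pos he', ← Finset.card_erase_add_one he']
        push_cast; ring
      · have hz' : z ∉ W := Set.disjoint_left.1 hBW hz
        have he' : s(y, z) ∉ J' := fun h => he (hm.1 h)
        simp only [hy, if_true] at h3
        simp only [hz', if_false]
        rw [← h3]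
        unfold tog
        rw [if_neg he', Finset.card_insert_of_notMem he']
        push_cast; ring
    · intro e he
      by_cases hh : e = s(y, z)
      · exact ⟨y, z, hh, hO, _, Trail.step y z J' hT hO hm⟩
      · rw [mem_tog hh] at he
        exact h4 e he

lemma exists_trail {G : SimpleGraph V} {J : Finset (Sym2 V)} {B W : Set V} (hBW : Disjoint B W)
    (hJ : ∀ e ∈ J, e ∈ G.edgeSet) {x y : V} (h : Relation.ReflTransGen (Ori G J B W) x y) :
    ∃ J', Trail G J B W x y J' := by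
  induction h with
  | refl => exact ⟨J, Trail.base⟩
  | @tail b c _ hbc ih =>
    obtain ⟨J', hT⟩ := ih
    by_cases hm : (s(b, c) ∈ J' ↔ s(b, c) ∈ J)
    · exact ⟨_, Trail.step b c J' hT hbc hm⟩
    · obtain ⟨a', b', he, hO, J'', hT'⟩ := (hT.props hBW hJ).2.2.2 _ hm
      rcases Sym2.eq_iff.1 he with ⟨rfl, rfl⟩ | ⟨rfl, rfl⟩
      · exact ⟨J'', hT'⟩
      · exfalso
        rcases hbc.2 with ⟨h1, h2, h3⟩ | ⟨h1, h2, h3⟩ <;>
        rcases hO.2 with ⟨h4, h5, h6⟩ | ⟨h4, h5, h6⟩
        · exact Set.disjoint_left.1 hBW h1 h5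
        · exact h6 (Sym2.eq_swap ▸ h3)
        · exact h3 (Sym2.eq_swap ▸ h6)
        · exact Set.disjoint_left.1 hBW h5 h1

/-- In a minimum join no edge of the join has both ends on one side and joined by an oriented path. -/
lemma no_same_side {G : SimpleGraph V} {D : Finset V} {J : Finset (Sym2 V)} {B W : Set V}
    (hBW : Disjoint B W) (hJ : IsMinJoin G D J) {x y : V}
    (h : Relation.ReflTransGen (Ori G J B W) x y)
    (hs : (x ∈ B ∧ y ∈ B) ∨ (x ∈ W ∧ y ∈ W)) (he : s(x, y) ∈ J) : False := by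
  classical
  obtain ⟨J', hT⟩ := exists_trail hBW hJ.1.1 h
  obtain ⟨h1, h2, h3, h4⟩ := hT.props hBW hJ.1.1
  have hxy : x ≠ y := (G.mem_edgeSet.1 (hJ.1.1 _ he)).ne
  have he' : s(x, y) ∈ J' := by
    by_contra hn
    obtain ⟨a, b, hab, hO, -⟩ := h4 s(x, y) (fun hh => hn (hh.2 he))
    have hd := Set.disjoint_left.1 hBW
    rcases Sym2.eq_iff.1 hab with ⟨rfl, rfl⟩ | ⟨rfl, rfl⟩ <;>
    rcases hO.2 with ⟨h5, h6, -⟩ | ⟨h5, h6, -⟩ <;>
    rcases hs with ⟨h7, h8⟩ | ⟨h7, h8⟩
    all_goals first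
      | exact hd h8 h6 | exact hd h5 h7 | exact hd h7 h5 | exact hd h6 h8
      | exact hd h7 h6 | exact hd h5 h8 | exact hd h8 h5 | exact hd h6 h7
  have hj : IsJoin G D (tog J' s(x, y)) := by
    rw [isJoin_iff]
    refine ⟨fun e hee => ?_, fun t => ?_⟩
    · by_cases hh : e = s(x, y)
      · rw [hh]; exact hJ.1.1 _ he
      · exact h1 e ((mem_tog hh).1 hee)
    · rw [deg_tog, h2, ind_mk hxy, ← ((isJoin_iff G D J).1 hJ.1).2 t]
      have a1 := two_z (ind (t = x))
      have a2 := two_z (ind (t = y))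
      linear_combination a1 + a2
  have hle := hJ.2 _ hj
  have hc : (tog J' s(x, y)).card + 1 = J'.card := by
    unfold tog; rw [if_pos he', Finset.card_erase_add_one he']
  have hxyW : (x ∈ W ↔ y ∈ W) := by
    have hd := Set.disjoint_left.1 hBW
    rcases hs with ⟨h7, h8⟩ | ⟨h7, h8⟩
    · exact iff_of_false (hd h7) (hd h8)
    · exact iff_of_true h7 h8
  simp only [hxyW] at h3
  omega

end Pool.Agent.MP_6e06a5_co
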