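import Mathlib
import Pool.Agent.MP_6e06a5_co.Basic

namespace Pool.Agent.MP_6e06a5_co

open Finset

variable {A : Type*} [AddCommGroup A] [DecidableEq A]

/-- Abstract square grid on an abelian group, with odd order generators. -/
structure Grid (G : SimpleGraph A) (Perp : A → A → Prop) : Prop where
  adj : ∀ p q, Perp p q → ∀ x y, G.Adj x y ↔ (y = x + p ∨ y = x - p ∨ y = x + q ∨ y = x - q)
  neg : ∀ p q, Perp p q → Perp (-p) q
  swap : ∀ p q, Perp p q → Perp q p
  ne0 : ∀ p q, Perp p q → p + p ≠ 0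
  ne2 : ∀ p q, Perp p q → p + p ≠ q + q
  odd : ∀ p q, Perp p q → ∃ k : ℕ, k • (p + p) = p

namespace Grid
variable {G : SimpleGraph A} {Perp : A → A → Prop} (H : Grid G Perp)
include H

omit [DecidableEq A] in
lemma neg' {p q : A} (h : Perp p q) : Perp p (-q) := H.swap _ _ (H.neg _ _ (H.swap _ _ h))

omit [DecidableEq A] in
lemma facts {p q : A} (h : Perp p q) :
    p ≠ 0 ∧ q ≠ 0 ∧ p ≠ q ∧ p ≠ -q ∧ p ≠ -p ∧ q ≠ -q := by
  have a1 := H.ne0 p q h
  have a2 := H.ne0 q p (H.swap _ _ h)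
  have a3 := H.ne2 p q h
  have a4 := H.ne2 p (-q) (H.neg' h)
  refine ⟨?_, ?_, ?_, ?_, ?_, ?_⟩
  · rintro rfl; simp at a1
  · rintro rfl; simp at a2
  · rintro rfl; simp at a3
  · rintro rfl; simp at a4
  · intro hh; exact a1 (by nth_rewrite 1 [hh]; simp)
  · intro hh; exact a2 (by nth_rewrite 1 [hh]; simp)

omit [DecidableEq A] in
lemma dir {p q p' q' : A} (h : Perp p q) (h' : Perp p' q') :
    p' = p ∨ p' = -p ∨ p' = q ∨ p' = -q := by
  have := (H.adj p q h 0 p').1 ((H.adj p' q' h' 0 p').2 (Or.inl (by simp)))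
  simpa using this

omit [DecidableEq A] in
lemma axis {p q p' q' : A} (h : Perp p q) (h' : Perp p' q') (hq : q' = q ∨ q' = -q) :
    p' = p ∨ p' = -p := by
  obtain ⟨-, -, f3, f4, -, -⟩ := H.facts h'
  rcases H.dir h h' with h1 | h1 | h1 | h1
  · exact Or.inl h1
  · exact Or.inr h1
  · rcases hq with h2 | h2
    · exact absurd (h1.trans h2.symm) f3
    · exact absurd (by rw [h1, h2, neg_neg]) f4
  · rcases hq with h2 | h2
    · exact absurd (by rw [h1, h2]) f4
    · exact absurd (h1.trans h2.symm) f3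

lemma deg_eq {p q : A} (h : Perp p q) {J : Finset (Sym2 A)} (hJ : ∀ e ∈ J, e ∈ G.edgeSet) (x : A) :
    joinDeg J x = (if s(x, x + p) ∈ J then 1 else 0) + (if s(x, x - p) ∈ J then 1 else 0) +
      (if s(x, x + q) ∈ J then 1 else 0) + (if s(x, x - q) ∈ J then 1 else 0) := by
  obtain ⟨f1, f2, f3, f4, f5, f6⟩ := H.facts h
  have hset : J.filter (fun e => x ∈ e) =
      ({s(x, x + p), s(x, x - p), s(x, x + q), s(x, x - q)} : Finset (Sym2 A)).filter (· ∈ J) := by
    ext e
    simp only [Finset.mem_filter, Finset.mem_insert, Finset.mem_singleton]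
    constructor
    · rintro ⟨he, hx⟩
      refine ⟨?_, he⟩
      obtain ⟨y, rfl⟩ := Sym2.mem_iff_exists.1 hx
      have := (H.adj p q h x y).1 (G.mem_edgeSet.1 (hJ _ he))
      rcases this with rfl | rfl | rfl | rfl <;> simp
    · rintro ⟨h1, he⟩
      refine ⟨he, ?_⟩
      rcases h1 with rfl | rfl | rfl | rfl <;> simp
  have ne : ∀ a b : A, a ≠ b → s(x, x + a) ≠ s(x, x + b) := by
    intro a b hab hh
    rw [Sym2.congr_right] at hh
    exact hab (add_left_cancel hh)
  have n1 : s(x, x + p) ≠ s(x, x - p) := by rw [sub_eq_add_neg]; exact ne _ _ f5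
  have n2 : s(x, x + p) ≠ s(x, x + q) := ne _ _ f3
  have n3 : s(x, x + p) ≠ s(x, x - q) := by rw [sub_eq_add_neg]; exact ne _ _ f4
  have n4 : s(x, x - p) ≠ s(x, x + q) := by
    rw [sub_eq_add_neg]; exact ne _ _ (fun hh => f4 (by rw [← hh, neg_neg]))
  have n5 : s(x, x - p) ≠ s(x, x - q) := by
    rw [sub_eq_add_neg, sub_eq_add_neg]; exact ne _ _ (fun hh => f3 (neg_injective hh))
  have n6 : s(x, x + q) ≠ s(x, x - q) := by rw [sub_eq_add_neg]; exact ne _ _ f6
  unfold joinDeg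
  rw [hset, Finset.card_filter, Finset.sum_insert (by simp only [Finset.mem_insert, Finset.mem_singleton, not_or]; exact ⟨n1, n2, n3⟩),
    Finset.sum_insert (by simp only [Finset.mem_insert, Finset.mem_singleton, not_or]; exact ⟨n4, n5⟩),
    Finset.sum_insert (by simp only [Finset.mem_singleton]; exact n6), Finset.sum_singleton]
  ring

end Grid

/-- The flip of the plaquette with corners `v, v+p, v+q, v+p+q`. -/
def flip (J : Finset (Sym2 A)) (v p q : A) : Finset (Sym2 A) :=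
  tog (tog (tog (tog J s(v, v + p)) s(v, v + q)) s(v + p, v + p + q)) s(v + q, v + p + q)

lemma mem_flip {J : Finset (Sym2 A)} {v p q : A} {e : Sym2 A} (h1 : e ≠ s(v, v + p))
    (h2 : e ≠ s(v, v + q)) (h3 : e ≠ s(v + p, v + p + q)) (h4 : e ≠ s(v + q, v + p + q)) :
    e ∈ flip J v p q ↔ e ∈ J := by
  unfold flip
  rw [mem_tog h4, mem_tog h3, mem_tog h2, mem_tog h1]

lemma card_tog (J : Finset (Sym2 A)) (e : Sym2 A) :
    ((tog J e).card : ℤ) = J.card + if e ∈ J then -1 else 1 := by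
  unfold tog
  split_ifs with h
  · rw [← Finset.card_erase_add_one h]; push_cast; ring
  · rw [Finset.card_insert_of_notMem h]; push_cast; ring

lemma joinDeg_tog (J : Finset (Sym2 A)) (e : Sym2 A) (z : A) :
    (joinDeg (tog J e) z : ℤ) =
      joinDeg J z + (if e ∈ J then -1 else 1) * (if z ∈ e then 1 else 0) := by
  unfold tog
  by_cases h : e ∈ J
  · simp only [h, if_true]
    rw [← joinDeg_erase h z]; push_cast; ring
  · simp only [h, if_false]
    rw [joinDeg_insert h]; push_cast; ring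

namespace Grid
variable {G : SimpleGraph A} {Perp : A → A → Prop} (H : Grid G Perp)
include H

omit [DecidableEq A] in
lemma corners {p q : A} (h : Perp p q) (v : A) :
    v ≠ v + p ∧ v ≠ v + q ∧ v ≠ v + p + q ∧ v + p ≠ v + q ∧ v + p ≠ v + p + q ∧
      v + q ≠ v + p + q := by
  obtain ⟨f1, f2, f3, f4, f5, f6⟩ := H.facts h
  refine ⟨?_, ?_, ?_, ?_, ?_, ?_⟩
  · intro hh; exact f1 (by simpa using hh)
  · intro hh; exact f2 (by simpa using hh)
  · intro hh; apply f4; rw [add_assoc] at hh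
    have : p + q = 0 := by simpa using hh
    exact eq_neg_of_add_eq_zero_left this
  · intro hh; exact f3 (add_left_cancel hh)
  · intro hh; exact f2 (by simpa using hh)
  · intro hh; apply f1; rw [add_right_comm] at hh; simpa using hh

omit [DecidableEq A] in
lemma edges_ne {p q : A} (h : Perp p q) (v : A) :
    s(v, v + p) ≠ s(v, v + q) ∧ s(v, v + p) ≠ s(v + p, v + p + q) ∧
    s(v, v + p) ≠ s(v + q, v + p + q) ∧ s(v, v + q) ≠ s(v + p, v + p + q) ∧
    s(v, v + q) ≠ s(v + q, v + p + q) ∧ s(v + p, v + p + q) ≠ s(v + q, v + p + q) := by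
  obtain ⟨c1, c2, c3, c4, c5, c6⟩ := H.corners h v
  refine ⟨?_, ?_, ?_, ?_, ?_, ?_⟩ <;> intro hh <;> rcases Sym2.eq_iff.1 hh with ⟨a, b⟩ | ⟨a, b⟩ <;>
    first | exact c1 a | exact c2 a | exact c3 a | exact c4 a | exact c5 a | exact c6 a
          | exact c1 b | exact c2 b | exact c3 b | exact c4 b | exact c5 b | exact c6 b

omit [DecidableEq A] in
lemma adjs {p q : A} (h : Perp p q) (v : A) :
    G.Adj v (v + p) ∧ G.Adj v (v + q) ∧ G.Adj (v + p) (v + p + q) ∧ G.Adj (v + q) (v + p + q) := by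
  refine ⟨(H.adj p q h _ _).2 (by simp), (H.adj p q h _ _).2 (by simp),
    (H.adj p q h _ _).2 (by simp), (H.adj p q h _ _).2 (Or.inl (add_right_comm _ _ _))⟩

lemma flip_mem {p q : A} (h : Perp p q) (J : Finset (Sym2 A)) (v : A) :
    (s(v, v + p) ∈ flip J v p q ↔ s(v, v + p) ∉ J) ∧
    (s(v, v + q) ∈ flip J v p q ↔ s(v, v + q) ∉ J) ∧
    (s(v + p, v + p + q) ∈ flip J v p q ↔ s(v + p, v + p + q) ∉ J) ∧
    (s(v + q, v + p + q) ∈ flip J v p q ↔ s(v + q, v + p + q) ∉ J) := by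
  obtain ⟨e1, e2, e3, e4, e5, e6⟩ := H.edges_ne h v
  unfold flip
  refine ⟨?_, ?_, ?_, ?_⟩
  · rw [mem_tog e3, mem_tog e2, mem_tog e1, mem_tog_self]
  · rw [mem_tog e5, mem_tog e4, mem_tog_self, mem_tog e1.symm]
  · rw [mem_tog e6, mem_tog_self, mem_tog e4.symm, mem_tog e2.symm]
  · rw [mem_tog_self, mem_tog e6.symm, mem_tog e5.symm, mem_tog e3.symm]

lemma flip_isJoin {p q : A} (h : Perp p q) {D : Finset A} {J : Finset (Sym2 A)}
    (hJ : IsJoin G D J) (v : A) : IsJoin G D (flip J v p q) := by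
  obtain ⟨c1, c2, c3, c4, c5, c6⟩ := H.corners h v
  obtain ⟨a1, a2, a3, a4⟩ := H.adjs h v
  rw [isJoin_iff] at hJ ⊢
  refine ⟨fun e he => ?_, fun t => ?_⟩
  · by_cases h1 : e = s(v, v + p)
    · rw [h1]; exact a1
    by_cases h2 : e = s(v, v + q)
    · rw [h2]; exact a2
    by_cases h3 : e = s(v + p, v + p + q)
    · rw [h3]; exact a3
    by_cases h4 : e = s(v + q, v + p + q)
    · rw [h4]; exact a4
    exact hJ.1 e ((mem_flip h1 h2 h3 h4).1 he)
  · unfold flip
    rw [deg_tog, deg_tog, deg_tog, deg_tog, ind_mk c1, ind_mk c2, ind_mk c5, ind_mk c6, hJ.2]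
    have b1 := two_z (ind (t = v))
    have b2 := two_z (ind (t = v + p))
    have b3 := two_z (ind (t = v + q))
    have b4 := two_z (ind (t = v + p + q))
    linear_combination b1 + b2 + b3 + b4

lemma flip_card {p q : A} (h : Perp p q) (J : Finset (Sym2 A)) (v : A) :
    ((flip J v p q).card : ℤ) = J.card + (if s(v, v + p) ∈ J then -1 else 1) +
      (if s(v, v + q) ∈ J then -1 else 1) + (if s(v + p, v + p + q) ∈ J then -1 else 1) +
      (if s(v + q, v + p + q) ∈ J then -1 else 1) := by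
  obtain ⟨e1, e2, e3, e4, e5, e6⟩ := H.edges_ne h v
  unfold flip
  rw [card_tog, card_tog, card_tog, card_tog]
  simp only [mem_tog e1.symm, mem_tog e2.symm, mem_tog e3.symm, mem_tog e4.symm, mem_tog e5.symm,
    mem_tog e6.symm]

lemma flip_deg {p q : A} (h : Perp p q) {J : Finset (Sym2 A)} {v : A} (h1 : s(v, v + p) ∈ J)
    (h2 : s(v, v + q) ∈ J) (h3 : s(v + p, v + p + q) ∉ J) (h4 : s(v + q, v + p + q) ∉ J) (z : A) :
    (joinDeg (flip J v p q) z : ℤ) =
      joinDeg J z - (if z = v then 2 else 0) + (if z = v + p + q then 2 else 0) := by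
  obtain ⟨e1, e2, e3, e4, e5, e6⟩ := H.edges_ne h v
  obtain ⟨c1, c2, c3, c4, c5, c6⟩ := H.corners h v
  unfold flip
  rw [joinDeg_tog, joinDeg_tog, joinDeg_tog, joinDeg_tog]
  simp only [mem_tog e1.symm, mem_tog e2.symm, mem_tog e3.symm, mem_tog e4.symm, mem_tog e5.symm,
    mem_tog e6.symm, h1, h2, h3, h4, if_true, if_false, Sym2.mem_iff]
  by_cases z1 : z = v
  · subst z1; simp only [c1, c2, c3, true_or, or_self, if_true, if_false]; ring
  by_cases z2 : z = v + p
  · subst z2; simp only [z1, c4, c5, true_or, or_true, or_self, if_true, if_false]; ring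
  by_cases z3 : z = v + q
  · subst z3; simp only [z1, z2, c6, true_or, or_true, or_self, if_true, if_false]; ring
  by_cases z4 : z = v + p + q
  · subst z4; simp only [z1, z2, z3, or_true, or_self, if_true, if_false]; ring
  simp only [z1, z2, z3, z4, or_self, if_false]; ring

end Grid

end Pool.Agent.MP_6e06a5_co
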