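import Mathlib
import Pool.Agent.MP_6e06a5_co.Main

namespace Pool.Agent.MP_6e06a5_co

open SimpleGraph

/-- perpendicular unit vectors -/
def PerpT {R : Type*} [Ring R] (p q : R × R) : Prop :=
  ((p = (1, 0) ∨ p = (-1, 0)) ∧ (q = (0, 1) ∨ q = (0, -1))) ∨
  ((q = (1, 0) ∨ q = (-1, 0)) ∧ (p = (0, 1) ∨ p = (0, -1)))

lemma grid_of_ring {R : Type*} [CommRing R] (C : SimpleGraph R)
    (hC : ∀ u v, C.Adj u v ↔ u - v = 1 ∨ v - u = 1) (h2 : (1 : R) + 1 ≠ 0)
    (k : ℕ) (hk : (k : R) * 2 = 1) : Grid (C □ C) PerpT := by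
  have h2' : (-1 : R) + -1 ≠ 0 := fun h => h2 (by linear_combination -h)
  have hC' : ∀ u v, C.Adj u v ↔ v = u + 1 ∨ v = u - 1 := by
    intro u v
    rw [hC]
    constructor
    · rintro (h | h)
      · right; linear_combination -h
      · left; linear_combination h
    · rintro (h | h)
      · right; linear_combination h
      · left; linear_combination -h
  refine ⟨?_, ?_, ?_, ?_, ?_, ?_⟩
  · rintro p q hpq ⟨x1, x2⟩ ⟨y1, y2⟩
    rw [boxProd_adj, hC', hC']
    rcases hpq with ⟨rfl | rfl, rfl | rfl⟩ | ⟨rfl | rfl, rfl | rfl⟩ <;>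
      simp only [Prod.mk_add_mk, Prod.mk_sub_mk, Prod.mk.injEq, add_zero, sub_zero, sub_neg_eq_add,
        ← sub_eq_add_neg, @eq_comm _ x1 y1, @eq_comm _ x2 y2] <;> tauto
  · rintro p q (⟨rfl | rfl, h⟩ | ⟨h, rfl | rfl⟩)
    · exact Or.inl ⟨Or.inr (by simp), h⟩
    · exact Or.inl ⟨Or.inl (by simp), h⟩
    · exact Or.inr ⟨h, Or.inr (by simp)⟩
    · exact Or.inr ⟨h, Or.inl (by simp)⟩
  · rintro p q (h | h)
    · exact Or.inr h
    · exact Or.inl h
  · rintro p q (⟨rfl | rfl, -⟩ | ⟨-, rfl | rfl⟩) h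
    · exact h2 (congrArg Prod.fst h)
    · exact h2' (congrArg Prod.fst h)
    · exact h2 (congrArg Prod.snd h)
    · exact h2' (congrArg Prod.snd h)
  · rintro p q (⟨rfl | rfl, rfl | rfl⟩ | ⟨rfl | rfl, rfl | rfl⟩) h <;>
      simp only [Prod.mk_add_mk, Prod.mk.injEq, add_zero] at h <;>
      first | exact h2 h.1 | exact h2' h.1 | exact h2 h.2 | exact h2' h.2
  · rintro p q -
    refine ⟨k, ?_⟩
    ext
    · simp only [nsmul_eq_mul, Prod.fst_mul, Prod.fst_natCast, Prod.fst_add]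
      linear_combination p.1 * hk
    · simp only [nsmul_eq_mul, Prod.snd_mul, Prod.snd_natCast, Prod.snd_add]
      linear_combination p.2 * hk

theorem torus_main (L : ℕ) (hL : 3 ≤ L) (hodd : Odd L) (D : Finset (Fin L × Fin L))
    (hD : Even D.card) :
    ∃ J, IsMinJoin (cycleGraph L □ cycleGraph L) D J ∧ ∀ v ∈ D, joinDeg J v = 1 := by
  obtain ⟨n, rfl⟩ : ∃ n, L = n + 3 := ⟨L - 3, by omega⟩
  obtain ⟨k, hk⟩ := hodd
  have H : Grid (A := ZMod (n + 3) × ZMod (n + 3)) (cycleGraph (n + 3) □ cycleGraph (n + 3)) PerpT := by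
    refine grid_of_ring (R := ZMod (n + 3)) (cycleGraph (n + 3)) (fun u v => Iff.rfl) ?_ (k + 1) ?_
    · intro h
      have : ((2 : ℕ) : ZMod (n + 3)) = 0 := by push_cast; linear_combination h
      rw [ZMod.natCast_eq_zero_iff] at this
      have := Nat.le_of_dvd (by norm_num) this
      omega
    · have : ((2 * k + 1 : ℕ) : ZMod (n + 3)) = 0 := by
        rw [← hk]; exact ZMod.natCast_self _
      push_cast at this ⊢
      linear_combination this
  exact H.main (p := (1, 0)) (q := (0, 1))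
    (cycleGraph_preconnected.boxProd cycleGraph_preconnected) (Or.inl ⟨Or.inl rfl, Or.inl rfl⟩) hD

end Pool.Agent.MP_6e06a5_co
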